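import Mathlib
import Pool.Agent.H46.WordDefs

set_option autoImplicit false

namespace Pool.Agent.Results.MP_7aef23_nt.Theta

open Filter Finset Pool.Agent.H46.Word

def Rep (U : ℤ → Prop) (k : ℕ) (x : ℤ) : Prop := ∃ f : Fin k → ℤ, (∀ i, U (f i)) ∧ ∑ i, f i = x

lemma Rep.cons {U : ℤ → Prop} {k : ℕ} {x y : ℤ} (hy : U y) (h : Rep U k (x - y)) :
    Rep U (k + 1) x := by
  obtain ⟨f, h1, h2⟩ := h
  refine ⟨Fin.cons y f, fun i => ?_, by simp [Fin.sum_univ_succ, h2]⟩
  refine Fin.cases ?_ (fun j => ?_) i <;> simp [hy, h1]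

lemma Rep.one {U : ℤ → Prop} {x : ℤ} (h : U x) : Rep U 1 x := ⟨fun _ => x, fun _ => h, by simp⟩

lemma Rep.uncons {U : ℤ → Prop} {k : ℕ} {x : ℤ} (h : Rep U (k + 1) x) :
    ∃ y, U y ∧ Rep U k (x - y) := by
  obtain ⟨f, h1, h2⟩ := h
  exact ⟨f 0, h1 0, fun i => f i.succ, fun i => h1 _, by rw [← h2, Fin.sum_univ_succ]; ring⟩

lemma Rep.neg {U : ℤ → Prop} (hU : ∀ x, U x → U (-x)) {k : ℕ} {x : ℤ} (h : Rep U k x) :
    Rep U k (-x) := by
  obtain ⟨f, h1, h2⟩ := h
  exact ⟨fun i => -f i, fun i => hU _ (h1 i), by simp [h2]⟩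

lemma dvc {a b c : ℤ} (h : a ∣ b) (e : b = c) : a ∣ c := e ▸ h

def D (p m z : ℤ) : Prop := ∃ (v : ℕ) (d : ℤ), 1 ≤ d ∧ d ≤ m ∧ p ^ (v + 2) ∣ z - d * p ^ (v + 1)

lemma D.dvd {p m z : ℤ} (h : D p m z) : p ∣ z := by
  obtain ⟨v, d, -, -, c, hc⟩ := h
  exact ⟨p ^ (v + 1) * c + d * p ^ v, by linear_combination hc⟩

lemma D.ne {p m : ℤ} (hm : m < p) (h : D p m 0) : False := by
  obtain ⟨v, d, h1, h2, c, hc⟩ := h
  have hp : 0 < p := by linarith
  have : p ^ (v + 1) * d = p ^ (v + 1) * (p * -c) := by linear_combination -hc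
  have h3 := mul_left_cancel₀ (by positivity) this
  have := Int.le_of_dvd (by linarith) ⟨_, h3⟩
  linarith

lemma D.add {p m m' z z' : ℤ} (h : D p m z) (h' : D p m' z') : D p (m + m') (z + z') := by
  obtain ⟨v, d, h1, h2, c, hc⟩ := h
  obtain ⟨v', d', h1', h2', c', hc'⟩ := h'
  rcases lt_trichotomy v v' with hv | rfl | hv
  · obtain ⟨e, rfl⟩ := Nat.exists_eq_add_of_lt hv
    exact ⟨v, d, h1, by linarith, c + p ^ (e + 1) * c' + d' * p ^ e, by linear_combination hc + hc'⟩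
  · exact ⟨v, d + d', by linarith, by linarith, c + c', by linear_combination hc + hc'⟩
  · obtain ⟨e, rfl⟩ := Nat.exists_eq_add_of_lt hv
    exact ⟨v', d', h1', by linarith, c' + p ^ (e + 1) * c + d * p ^ e,
      by linear_combination hc + hc'⟩

lemma D.of_dvd {p : ℕ} (hp : p.Prime) {z : ℤ} (h0 : z ≠ 0) (h : (p : ℤ) ∣ z) : D p (p - 1) z := by
  have hp' : (0 : ℤ) < p := by exact_mod_cast hp.pos
  obtain ⟨v, u, hu, rfl⟩ := WfDvdMonoid.max_power_factor h0
    (Nat.prime_iff_prime_int.mp hp).irreducible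
  cases v with
  | zero => exact absurd (by simpa using h) hu
  | succ v =>
    have h1 := Int.emod_nonneg u hp'.ne'
    have h2 := Int.emod_lt_of_pos u hp'
    have h3 : u % p ≠ 0 := fun e => hu (Int.dvd_of_emod_eq_zero e)
    exact ⟨v, u % p, by omega, by omega, u / p, by
      linear_combination (-(p : ℤ) ^ (v + 1)) * Int.emod_add_mul_ediv u p⟩

lemma local_set (h w : ℕ) (hh : 1 ≤ h) (hw : 0 < w) (p : ℕ) (hp : p.Prime) (hpw : w < p)
    (hm : p ≡ 1 [MOD (2 * h)]) : ∃ U : ℤ → Prop, (∀ x, U x → U (-x)) ∧ U 0 ∧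
      (∀ x, U x → ∃ N : ℕ, ∀ y, (p : ℤ) ^ N ∣ y - x → U y) ∧ ¬ Rep U h w ∧
      ∀ x : ℤ, x ≠ w → x ≠ -w → Rep U h x := by
  obtain ⟨s, hs⟩ : ∃ s : ℤ, (p : ℤ) = 2 * h * s + 1 := by
    obtain ⟨c, hc⟩ := (Nat.modEq_iff_dvd.mp hm.symm)
    exact ⟨c, by push_cast at hc; linarith⟩
  have hp2 : (2 : ℤ) ≤ p := by exact_mod_cast hp.two_le
  have hh' : (1 : ℤ) ≤ h := by exact_mod_cast hh
  have hs1 : 1 ≤ s := by
    by_contra hc
    have : s ≤ 0 := by omega
    nlinarith
  have hpp := Nat.prime_iff_prime_int.mp hp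
  have ch : IsCoprime (h : ℤ) p := ⟨-(2 * s), 1, by linear_combination hs⟩
  have cw : IsCoprime (w : ℤ) p := by
    refine (hpp.irreducible.coprime_iff_not_dvd.mpr fun hd => ?_).symm
    have := Int.le_of_dvd (by exact_mod_cast hw) hd
    omega
  obtain ⟨a, ha⟩ : ∃ a : ℤ, (p : ℤ) ∣ a * w - h * s := by
    obtain ⟨u, v, huv⟩ := cw
    exact ⟨u * (h * s), -(v * h * s), by linear_combination (h * s) * huv⟩
  have solve : ∀ (N : ℕ) (c : ℤ), ∃ y : ℤ, (p : ℤ) ^ N ∣ h * y - w - c := fun N c => by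
    obtain ⟨u, v, huv⟩ := ch.pow_right (n := N)
    exact ⟨u * (w + c), -(v * (w + c)), by linear_combination (w + c) * huv⟩
  have cls : ∀ y : ℤ, (p : ℤ) ∣ h * y - w → (p : ℤ) ∣ a * y - s := fun y hy => by
    refine ch.symm.dvd_of_dvd_mul_left ?_
    have := (hy.mul_left a).add ha
    convert this using 1; ring
  set U : ℤ → Prop := fun x => (∃ j, |j| < s ∧ (p : ℤ) ∣ a * x - j) ∨ D p (2 * s) (h * x - w) ∨
    D p (2 * s) (-(h * x) - w) with hU
  have sym : ∀ x, U x → U (-x) := by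
    rintro x (⟨j, h1, h2⟩ | h1 | h1)
    · exact Or.inl ⟨-j, by rwa [abs_neg], dvc h2.neg_right (by ring)⟩
    · exact Or.inr (Or.inr (by convert h1 using 1; ring))
    · exact Or.inr (Or.inl (by convert h1 using 1; ring))
  have U0 : U 0 := Or.inl ⟨0, by simp; omega, by simp⟩
  have A : ∀ (k : ℕ) (x J : ℤ), |J| < (k + 1) * s → (p : ℤ) ∣ a * x - J → Rep U (k + 1) x := by
    obtain ⟨y, hy⟩ := solve 2 p
    have y1 : D p (2 * s) (h * y - w) := ⟨0, 1, le_rfl, by linarith, by simpa using hy⟩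
    have y2 := cls y y1.dvd
    intro k
    induction k with
    | zero => intro x J h1 h2; exact Rep.one (Or.inl ⟨J, by simpa using h1, h2⟩)
    | succ k ih =>
      intro x J h1 h2
      push_cast at h1
      rw [abs_lt] at h1
      have k0 : (0 : ℤ) ≤ k * s := by positivity
      by_cases c1 : |J| < (k + 1) * s
      · exact Rep.cons U0 (ih _ J c1 (by simpa using h2))
      rw [abs_lt, not_and_or, not_lt, not_lt] at c1
      rcases c1 with c1 | c1
      · refine Rep.cons (sym _ (Or.inr (Or.inl y1))) (ih _ (J + s) (abs_lt.mpr ⟨?_, ?_⟩) ?_)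
        · linarith
        · linarith
        · exact dvc (h2.add y2) (by ring)
      · refine Rep.cons (Or.inr (Or.inl y1)) (ih _ (J - s) (abs_lt.mpr ⟨?_, ?_⟩) ?_)
        · linarith
        · linarith
        · exact dvc (h2.sub y2) (by ring)
  have B : ∀ (k : ℕ) (x : ℤ), D p (2 * (k + 1) * s) (h * x - (k + 1) * w) → Rep U (k + 1) x := by
    intro k
    induction k with
    | zero => intro x h1; exact Rep.one (Or.inr (Or.inl (by simpa using h1)))
    | succ k ih =>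
      rintro x ⟨v, d, h1, h2, c, hc⟩
      push_cast at h2 hc
      have k0 : (0 : ℤ) ≤ k * s := by positivity
      by_cases c1 : d ≤ 2 * (k + 1) * s
      · obtain ⟨y, e, he⟩ := solve (v + 3) (p ^ (v + 2))
        refine Rep.cons (y := y) (Or.inr (Or.inl ⟨v + 1, 1, le_rfl, by linarith, e, by
          linear_combination he⟩)) (ih _ ⟨v, d, h1, c1, c - p * e - 1, ?_⟩)
        linear_combination hc - he
      · obtain ⟨y, e, he⟩ := solve (v + 2) (2 * s * p ^ (v + 1))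
        refine Rep.cons (y := y) (Or.inr (Or.inl ⟨v, 2 * s, by linarith, le_rfl, e, he⟩))
          (ih _ ⟨v, d - 2 * s, by linarith, by linarith, c - e, ?_⟩)
        linear_combination hc - he
  have small : ∀ J : ℤ, (p : ℤ) ∣ J → |J| < p → J = 0 := fun J h1 h2 =>
    Int.eq_zero_of_abs_lt_dvd h1 h2
  have C1 : ∀ y, U y → ∃ J, |J| ≤ s ∧ (p : ℤ) ∣ a * y - J ∧ (J = s → D p (2 * s) (h * y - w)) := by
    rintro y (⟨j, h1, h2⟩ | h1 | h1)
    · exact ⟨j, h1.le, h2, fun e => by rw [e, abs_of_pos (by linarith)] at h1; omega⟩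
    · exact ⟨s, by rw [abs_of_pos (by linarith)], cls y h1.dvd, fun _ => h1⟩
    · refine ⟨-s, by rw [abs_neg, abs_of_pos (by linarith)], ?_, fun e => by omega⟩
      exact dvc (cls (-y) (dvc h1.dvd (by ring))).neg_right (by ring)
  have C : ∀ (k : ℕ) (x : ℤ), Rep U (k + 1) x → ∃ J, |J| ≤ (k + 1) * s ∧ (p : ℤ) ∣ a * x - J ∧
      (J = (k + 1) * s → D p (2 * (k + 1) * s) (h * x - (k + 1) * w)) := by
    intro k
    induction k with
    | zero =>
      rintro x ⟨f, h1, h2⟩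
      simp only [Nat.reduceAdd, univ_unique, Fin.default_eq_zero, Fin.isValue,
        sum_singleton] at h2
      simpa [h2] using C1 _ (h1 0)
    | succ k ih =>
      intro x hx
      obtain ⟨y, h1, h2⟩ := hx.uncons
      obtain ⟨J, a1, a2, a3⟩ := C1 y h1
      obtain ⟨J', b1, b2, b3⟩ := ih _ h2
      push_cast
      rw [abs_le] at a1 b1
      refine ⟨J + J', abs_le.mpr ⟨by linarith, by linarith⟩, dvc (a2.add b2) (by ring),
        fun e => ?_⟩
      convert (a3 (by linarith)).add (b3 (by linarith)) using 1 <;> ring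
  obtain ⟨k, rfl⟩ : ∃ k, h = k + 1 := ⟨h - 1, by omega⟩
  push_cast at *
  have hs0 : 0 < ((k : ℤ) + 1) * s := by positivity
  have top : ∀ x : ℤ, x ≠ w → (p : ℤ) ∣ a * x - (k + 1) * s → Rep U (k + 1) x := fun x h1 h2 => by
    have ca : ¬ (p : ℤ) ∣ a := fun hd => by
      have := small _ ((Int.dvd_iff_dvd_of_dvd_sub h2).mp (hd.mul_right x))
        (by rw [abs_of_pos hs0]; linarith)
      omega
    have h3 : (p : ℤ) ∣ a * (x - w) := dvc (h2.sub ha) (by ring)
    have h4 := (hpp.dvd_or_dvd h3).resolve_left ca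
    refine B k x ?_
    convert D.of_dvd hp (z := (k + 1) * (x - w)) (mul_ne_zero (by positivity) (sub_ne_zero.mpr h1))
      (h4.mul_left _) using 1
    · linarith
    · ring
  refine ⟨U, sym, U0, ?_, fun hr => ?_, fun x h1 h2 => ?_⟩
  · rintro x (⟨j, h1, h2⟩ | ⟨v, d, h1, h2, h3⟩ | ⟨v, d, h1, h2, h3⟩)
    · exact ⟨1, fun y hy => Or.inl ⟨j, h1, 
        dvc (h2.add ((pow_one (p : ℤ) ▸ hy).mul_left a)) (by ring)⟩⟩
    · exact ⟨v + 2, fun y hy => Or.inr (Or.inl ⟨v, d, h1, h2, 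
        dvc (h3.add (hy.mul_left (k + 1))) (by push_cast; ring)⟩)⟩
    · exact ⟨v + 2, fun y hy => Or.inr (Or.inr ⟨v, d, h1, h2, 
        dvc (h3.sub (hy.mul_left (k + 1))) (by push_cast; ring)⟩)⟩
  · obtain ⟨J, a1, a2, a3⟩ := C k w hr
    rw [abs_le] at a1
    have := small (J - (k + 1) * s) (dvc (ha.sub a2) (by ring))
      (abs_lt.mpr ⟨by linarith, by linarith⟩)
    have h5 := a3 (by linarith)
    rw [sub_self] at h5
    exact h5.ne (by linarith)
  · have e1 := Int.emod_nonneg (a * x + (k + 1) * s) (by linarith : (p : ℤ) ≠ 0)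
    have e2 := Int.emod_lt_of_pos (a * x + (k + 1) * s) (by linarith : (0 : ℤ) < p)
    have e3 : (p : ℤ) ∣ a * x - ((a * x + (k + 1) * s) % p - (k + 1) * s) :=
      ⟨(a * x + (k + 1) * s) / p, by
        linear_combination -Int.emod_add_mul_ediv (a * x + (k + 1) * s) p⟩
    generalize (a * x + (k + 1) * s) % p = m at *
    by_cases c1 : m = 0
    · have := (top (-x) (fun e => h2 (by linarith)) 
        (dvc e3.neg_right (by rw [c1]; ring))).neg sym
      rwa [neg_neg] at this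
    by_cases c2 : m = p - 1
    · exact top x h1 (dvc e3 (by rw [c2]; linarith))
    · refine A k x _ (abs_lt.mpr ⟨?_, ?_⟩) e3
      · have : 0 < m := by omega
        linarith
      · have : m < p - 1 := by omega
        linarith

lemma crt (W : Finset ℕ) (q : ℕ → ℤ) (hq : ∀ w ∈ W, ∀ w' ∈ W, w ≠ w' → IsCoprime (q w) (q w'))
    (c : ℕ → ℤ) : ∃ y : ℤ, ∀ w ∈ W, q w ∣ y - c w := by
  induction W using Finset.induction_on with
  | empty => simp
  | insert a W ha ih =>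
    obtain ⟨y, hy⟩ := ih fun w hw w' hw' => hq w (mem_insert_of_mem hw) w' (mem_insert_of_mem hw')
    obtain ⟨u, v, huv⟩ : IsCoprime (q a) (∏ w ∈ W, q w) := IsCoprime.prod_right fun w hw =>
      hq a (mem_insert_self _ _) w (mem_insert_of_mem hw) (fun e => ha (e ▸ hw))
    refine ⟨y + (∏ w ∈ W, q w) * (v * (c a - y)), fun w hw => ?_⟩
    rcases mem_insert.mp hw with rfl | hw
    · exact ⟨u * (y - c w), by linear_combination (c w - y) * huv⟩
    · exact dvc ((hy w hw).add ((dvd_prod_of_mem q hw).mul_right (v * (c a - y)))) (by ring)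

lemma global (k : ℕ) (W : Finset ℕ) (hW : ∀ w ∈ W, 0 < w) : ∃ (B : ℤ → Prop) (M : ℕ), 0 < M ∧
    (∀ x, B x → B (-x)) ∧ (∀ x, (M : ℤ) ∣ x → B x) ∧ (∀ w ∈ W, ¬ Rep B (k + 1) w) ∧
    ∀ x : ℤ, (∀ w ∈ W, x ≠ w ∧ x ≠ -w) → Rep B (k + 1) x := by
  have inf := (Nat.infinite_setOfPred_prime_modEq_one (k := 2 * (k + 1)) (by omega)).sdiff
    (Set.finite_le_nat (W.sup id))
  set p := inf.natEmbedding
  have hp : ∀ w, (p w).1.Prime ∧ (p w).1 ≡ 1 [MOD (2 * (k + 1))] ∧ W.sup id < (p w).1 :=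
    fun w => ⟨(p w).2.1.1, (p w).2.1.2, not_le.mp (p w).2.2⟩
  have : ∀ w, ∃ U : ℤ → Prop, w ∈ W → (∀ x, U x → U (-x)) ∧ U 0 ∧
      (∀ x, U x → ∃ N : ℕ, ∀ y, ((p w).1 : ℤ) ^ N ∣ y - x → U y) ∧ ¬ Rep U (k + 1) w ∧
      ∀ x : ℤ, x ≠ w → x ≠ -w → Rep U (k + 1) x := fun w => by
    by_cases hw : w ∈ W
    · obtain ⟨U, hU⟩ := local_set (k + 1) w (by omega) (hW w hw) _ (hp w).1
        (lt_of_le_of_lt (le_sup (f := id) hw) (hp w).2.2) (hp w).2.1
      exact ⟨U, fun _ => hU⟩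
    · exact ⟨fun _ => True, fun h => absurd h hw⟩
  choose U hU using this
  have op : ∀ w x, ∃ N : ℕ, w ∈ W → U w x → ∀ y, ((p w).1 : ℤ) ^ N ∣ y - x → U w y := fun w x => by
    by_cases h : w ∈ W ∧ U w x
    · obtain ⟨N, hN⟩ := (hU w h.1).2.2.1 x h.2
      exact ⟨N, fun _ _ => hN⟩
    · exact ⟨0, fun a b => absurd ⟨a, b⟩ h⟩
  choose N hN using op
  refine ⟨fun x => ∀ w ∈ W, U w x, ∏ w ∈ W, (p w).1 ^ N w 0,
    prod_pos fun w _ => pow_pos (hp w).1.pos _, fun x h w hw => (hU w hw).1 x (h w hw),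
    fun x hx w hw => hN w 0 hw (hU w hw).2.1 x ?_, fun w hw ⟨f, h1, h2⟩ => ?_, fun x hx => ?_⟩
  · rw [sub_zero]
    refine dvd_trans ?_ hx
    exact_mod_cast dvd_prod_of_mem (fun w => (p w).1 ^ N w 0) hw
  · exact (hU w hw).2.2.2.1 ⟨f, fun i => h1 i w hw, h2⟩
  · have : ∀ w, ∃ f : Fin (k + 1) → ℤ, w ∈ W → (∀ i, U w (f i)) ∧ ∑ i, f i = x := fun w => by
      by_cases hw : w ∈ W
      · obtain ⟨f, hf⟩ := (hU w hw).2.2.2.2 x (hx w hw).1 (hx w hw).2
        exact ⟨f, fun _ => hf⟩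
      · exact ⟨0, fun h => absurd h hw⟩
    choose f hf using this
    choose y hy using fun i : Fin k => crt W (fun w => ((p w).1 : ℤ) ^ ∑ j, N w (f w j))
      (fun w _ w' _ hne => (Nat.isCoprime_iff_coprime.mpr ((Nat.coprime_primes (hp w).1
        (hp w').1).mpr fun e => hne (p.injective (Subtype.ext e)))).pow) fun w => f w i.succ
    have dv : ∀ w j, ((p w).1 : ℤ) ^ N w (f w j) ∣ ((p w).1 : ℤ) ^ ∑ j, N w (f w j) := fun w j =>
      pow_dvd_pow _ (single_le_sum (f := fun j => N w (f w j)) (fun _ _ => Nat.zero_le _)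
        (mem_univ j))
    refine ⟨Fin.cons (x - ∑ i, y i) y, fun i w hw => hN w (f w i) hw ((hf w hw).1 i) _
      ((dv w i).trans ?_), by simp [Fin.sum_univ_succ]⟩
    refine Fin.cases ?_ (fun j => ?_) i
    · have := (dvd_sum fun i (_ : i ∈ univ) => hy i w hw).neg_right
      refine dvc this ?_
      rw [← (hf w hw).2, Fin.sum_univ_succ, sum_sub_distrib]
      simp only [Fin.cons_zero]
      ring
    · simpa using hy j w hw

theorem result (r : ℕ) (hr : 2 ≤ r) (W : Finset ℕ) (hW : ∀ w ∈ W, 0 < w) :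
    IsGreatest {θ : ℝ | 0 < θ ∧ ∃ A ∈ family r W, ∃ c : ℝ, 0 < c ∧
      ∀ᶠ t : ℝ in atTop, c * t ^ θ ≤ cnt A t} 1 := by
  have fin : ∀ (A : Set ℕ) (t : ℝ), {a | a ∈ A ∧ (a : ℝ) ≤ t}.Finite := fun A t =>
    (Set.finite_le_nat ⌊t⌋₊).subset fun a ha => Nat.le_floor ha.2
  constructor
  · obtain ⟨k, rfl⟩ : ∃ k, r = k + 2 := ⟨r - 2, by omega⟩
    obtain ⟨B, M, hM, sym, mul, no, yes⟩ := global k W hW
    have B0 : B 0 := mul 0 (dvd_zero _)
    set A : Set ℕ := {a | 0 < a ∧ B a} with hA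
    have t1 : ∀ j x, IsSum A j x → ∀ i, Rep B (j + i) x := by
      rintro j x ⟨f, h1, h2⟩ i
      induction i with
      | zero =>
        refine ⟨f, fun i => ?_, h2⟩
        obtain ⟨a, ha, e | e⟩ := h1 i <;> rw [e]
        exacts [ha.2, sym _ ha.2]
      | succ i ih => exact Rep.cons B0 (by simpa using ih)
    have t2 : ∀ j x, Rep B j x → ∃ i ≤ j, IsSum A i x := by
      intro j
      induction j with
      | zero => rintro x ⟨f, -, h2⟩; exact ⟨0, le_rfl, f, fun i => i.elim0, h2⟩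
      | succ j ih =>
        intro x hx
        obtain ⟨y, h1, h2⟩ := hx.uncons
        obtain ⟨i, hi, h3⟩ := ih _ h2
        by_cases h0 : y = 0
        · exact ⟨i, by omega, by simpa [h0] using h3⟩
        · refine ⟨i + 1, by omega, Rep.cons (U := fun z => ∃ a ∈ A, z = (a : ℤ) ∨ z = -(a : ℤ))
            ⟨y.natAbs, ⟨by omega, ?_⟩, by omega⟩ h3⟩
          rcases Int.natAbs_eq y with e | e
          · rwa [← e]
          · have := sym _ h1
            rwa [e, neg_neg] at this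
    have t3 : ∀ x, Rep B (k + 2) x := fun x => by
      have b1 : ∀ w ∈ W, (w : ℤ) ≤ (W.sup id : ℕ) := fun w hw => by
        exact_mod_cast le_sup (f := id) hw
      have hM' : (1 : ℤ) ≤ M := by exact_mod_cast hM
      have b2 : (|x| + (W.sup id : ℕ) + 1) ≤ M * (|x| + (W.sup id : ℕ) + 1) :=
        le_mul_of_one_le_left (by positivity) hM'
      refine Rep.cons (mul _ (dvd_mul_right _ (|x| + (W.sup id : ℕ) + 1))) (yes _ fun w hw => ?_)
      have := b1 w hw
      have := le_abs_self x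
      constructor <;> omega
    have t4 : ∀ w ∈ W, ∀ x : ℤ, (x = w ∨ x = -w) → ∀ j < k + 2, ¬ IsSum A j x := by
      intro w hw x hx j hj h
      have := t1 j x h (k + 1 - j)
      rw [show j + (k + 1 - j) = k + 1 by omega] at this
      rcases hx with rfl | rfl
      · exact no w hw this
      · exact no w hw (by simpa using this.neg sym)
    refine ⟨one_pos, A, ⟨fun a ha => ha.1, fun x => (t2 _ x (t3 x)).imp fun _ h => h.2, ?_⟩,
      1 / (2 * M), by positivity, ?_⟩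
    · ext x
      constructor
      · rintro ⟨-, h2⟩
        by_contra hc
        obtain ⟨i, hi, h3⟩ := t2 _ x (yes x fun w hw =>
          ⟨fun e => hc ⟨w, hw, Or.inl e⟩, fun e => hc ⟨w, hw, Or.inr e⟩⟩)
        exact h2 i (by omega) h3
      · rintro ⟨w, hw, hx⟩
        refine ⟨?_, t4 w hw x hx⟩
        obtain ⟨i, hi, h3⟩ := t2 _ x (t3 x)
        rcases hi.lt_or_eq with hi | rfl
        exacts [absurd h3 (t4 w hw x hx i hi), h3]
    · filter_upwards [eventually_ge_atTop (2 * M : ℝ)] with t ht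
      have hM' : (0 : ℝ) < M := by exact_mod_cast hM
      have h1 : ⌊t / M⌋₊ ≤ cnt A t := by
        have : (Finset.range ⌊t / M⌋₊).card ≤ cnt A t := by
          rw [← Set.ncard_coe_finset]
          refine Set.ncard_le_ncard_of_injOn (fun i => M * (i + 1)) (fun i hi => ?_)
            (fun i _ j _ e => by simpa [hM.ne'] using e) (fin A t)
          have h2 : i + 1 ≤ ⌊t / M⌋₊ := mem_range.mp hi
          rw [Nat.le_floor_iff (div_nonneg (by linarith) hM'.le), le_div_iff₀ hM'] at h2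
          exact ⟨⟨by positivity, mul _ (by push_cast; exact dvd_mul_right _ _)⟩, by
            push_cast at h2 ⊢; linarith⟩
        simpa using this
      have h2 := Nat.lt_floor_add_one (t / M)
      have h3 : (2 : ℝ) ≤ t / M := by rw [le_div_iff₀ hM']; exact ht
      have h4 : (⌊t / M⌋₊ : ℝ) ≤ cnt A t := by exact_mod_cast h1
      have : 1 / (2 * M) * t ^ (1 : ℝ) = t / M / 2 := by rw [Real.rpow_one]; field_simp
      linarith
  · rintro θ ⟨-, A, hA, c, hc, h⟩
    by_contra hθ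
    have hθ : 0 < θ - 1 := by linarith [not_le.mp hθ]
    obtain ⟨t, h1, h2, h3⟩ := (h.and (((tendsto_rpow_atTop hθ).eventually_gt_atTop (2 / c)).and
      (eventually_ge_atTop 1))).exists
    have h4 : cnt A t ≤ ⌊t⌋₊ + 1 := by
      rw [← card_range (⌊t⌋₊ + 1), ← Set.ncard_coe_finset]
      exact Set.ncard_le_ncard (fun a ha => by
        simpa using Nat.lt_succ_of_le (Nat.le_floor ha.2)) (finite_toSet _)
    have h5 : (cnt A t : ℝ) ≤ ⌊t⌋₊ + 1 := by exact_mod_cast h4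
    have h6 := Nat.floor_le (show 0 ≤ t by linarith)
    rw [Real.rpow_sub_one (by linarith), div_lt_div_iff₀ hc (by linarith)] at h2
    linarith

end Pool.Agent.Results.MP_7aef23_nt.Theta
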